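import Mathlib
import Pool.Agent.H25.Four

open PowerSeries Finset

namespace Pool.Agent.Results.MP_b3d406_nt.Auto

/-- The series `1 / (1 - x ^ d) = 1 + x ^ d + x ^ (2 d) + ⋯`. -/
noncomputable def geom (d : ℕ) : ℤ⟦X⟧ := PowerSeries.mk fun j => if d ∣ j then 1 else 0

/-- `S k m n`: the coefficient of `x ^ n` in `(1 - x) ^ (-m) ∏ i, (1 - x ^ k ^ i) ^ (-m (k - 1))`;
the factors with `i > n` are `1` modulo `x ^ (n + 1)` and are left out. -/
noncomputable def S (k m n : ℕ) : ℤ :=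
  coeff n (geom 1 ^ m * ∏ i ∈ range (n + 1), geom (k ^ i) ^ (m * (k - 1)))

theorem result (m : ℕ) (h0 : 0 < m) (hm : m % 8 ≠ 6) : {f : ℕ → ℕ∞ | ∃ i, ∃ j < 4 ^ i,
    f = fun n => emultiplicity 4 (S 4 m (4 ^ i * n + j))}.Finite :=
  H25.Four.ker_fin h0.ne' hm 1

end Pool.Agent.Results.MP_b3d406_nt.Auto
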